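import Pool.Agent.W819.NC.Stm

/-!
Project NC: generating functions of annuli.
-/

set_option autoImplicit false

namespace Pool.Agent.W585.NC

open H974 Finset Pool.Agent.W819.EN Pool.Agent.W819.NC

lemma hok : Ok P2 := okq (q := (1 / 2 : ℝ)) (by norm_num) (by norm_num)

lemma bx_mono (v : Vtx) {k l : ℤ} (h : k ≤ l) : bx v k ⊆ bx v l := by
  unfold bx
  exact RE_subset (by omega) (by omega) (by omega) (by omega)

lemma an_sub (v : Vtx) {r R R' : ℕ} (h : R ≤ R') : an v r R ⊆ bx v (R' : ℤ) :=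
  sdiff_subset.trans (bx_mono v (by exact_mod_cast h))

lemma an_disj (v : Vtx) {r R : ℕ} {k : ℤ} (h : k ≤ (r : ℤ) - 1) : Disjoint (an v r R) (bx v k) := by
  rw [Finset.disjoint_left]
  intro x hx hx'
  unfold an at hx
  rw [Finset.mem_sdiff] at hx
  exact hx.2 (bx_mono v h hx')

lemma inter_sup {F T S : Finset Edg} (hS : T ⊆ S) : F ∩ S ∩ T = F ∩ T := by
  ext x
  simp only [Finset.mem_inter]
  constructor
  · rintro ⟨⟨h1, -⟩, h2⟩
    exact ⟨h1, h2⟩
  · rintro ⟨h1, h2⟩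
    exact ⟨⟨h1, hS h2⟩, h2⟩

lemma loc' {N : NT} (hG : Geo N) {v : Vtx} {r R : ℕ} (h : r ≤ R)
    {S : Finset Edg} (hS : an v r R ⊆ S) (F : Finset Edg) : N F v r R = N (F ∩ S) v r R := by
  rw [hG.loc F v r R h, hG.loc (F ∩ S) v r R h, inter_sup hS]

lemma wloc' {N : NT} {W : WT} {K : KT} (hG : Sys N W K) {v : Vtx} {b : ℕ} (h : 1 ≤ b)
    {S : Finset Edg} (hS : an v b (2 * b) ⊆ S) (F : Finset Edg) : W F v b = W (F ∩ S) v b := by
  rw [hG.wloc F v b h, hG.wloc (F ∩ S) v b h, inter_sup hS]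

lemma loc2 {Y : Finset Edg → ℝ} {T S : Finset Edg} (hS : T ⊆ S) (hY : ∀ F, Y F = Y (F ∩ T))
    (F : Finset Edg) : Y F = Y (F ∩ S) := by
  rw [hY F, hY (F ∩ S), inter_sup hS]

/-- comparison of powers -/
lemma cmp {t s : ℝ} (ht : 0 < t) (hs : 1 ≤ s) (h1 : t ≤ s) (h2 : 1 / t ≤ s) {n m p : ℕ}
    (a : n ≤ m) (b : m ≤ n + p) : t ^ n ≤ t ^ m * s ^ p ∧ t ^ m ≤ t ^ n * s ^ p := by
  obtain ⟨q, rfl⟩ := Nat.exists_eq_add_of_le a
  have hq : q ≤ p := by omega
  have hsq : s ^ q ≤ s ^ p := pow_le_pow_right₀ hs hq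
  have hs0 : 0 < s := by linarith
  constructor
  · have h3 : 1 ≤ t * s := by
      rw [div_le_iff₀ ht] at h2
      linarith [mul_comm s t]
    have h4 : 1 ≤ t ^ q * s ^ q := by
      rw [← mul_pow]
      exact one_le_pow₀ h3
    calc t ^ n = t ^ n * 1 := (mul_one _).symm
      _ ≤ t ^ n * (t ^ q * s ^ q) := by gcongr
      _ ≤ t ^ n * (t ^ q * s ^ p) := by gcongr
      _ = t ^ (n + q) * s ^ p := by rw [pow_add]; ring
  · rw [pow_add]
    gcongr
    calc t ^ q ≤ s ^ q := by gcongr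
      _ ≤ s ^ p := hsq

/-- pieces attached to the inner factor -/
lemma inner {N : NT} {W : WT} {K : KT} (h : Sys N W K) (hl : LocG N) {t A : ℝ}
    (ht : 0 < t) (hA0 : 0 < A)
    (hA : ∀ (v : Vtx) (r R c : ℕ) (S T : Finset Edg) (Y : Finset Edg → ℝ), r ≤ R → 1 ≤ c →
      R ≤ 2 * c → bx v R ⊆ S → T ⊆ S → Disjoint T (bx v ((c : ℤ) - 1)) → (∀ F, 0 ≤ Y F) →
      (∀ F, F ⊆ S → Y F = Y (F ∩ T)) →
      Ex P2 S (fun F => t ^ N F v r R * Y F) ≤
        A * G N t r R * Real.sqrt (Ex P2 S (fun F => Y F ^ 2)))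
    {C : ℝ} {a r R : ℕ} (ha : 1 ≤ a) (har : 16 * a ≤ r) (hrR : r ≤ R)
    {T : Finset Edg} {Y : Finset Edg → ℝ} (hT : T ⊆ bx (0, 0) ((8 * a : ℕ) : ℤ))
    (hTd : Disjoint T (bx (0, 0) ((a : ℤ) - 1))) (hY : ∀ F, 0 ≤ Y F)
    (hYT : ∀ F, Y F = Y (F ∩ T))
    (hC : Ex P2 (bx (0, 0) (R : ℤ)) (fun F => Y F ^ 2) ≤ C) :
    Ex P2 (bx (0, 0) (R : ℤ)) (fun F => t ^ N F (0, 0) 0 (2 * a) * t ^ N F (0, 0) r R * Y F) ≤
      A * Real.sqrt C *
        Ex P2 (bx (0, 0) (R : ℤ)) (fun F => t ^ N F (0, 0) 0 (2 * a) * t ^ N F (0, 0) r R) := by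
  have hsub8 : bx (0, 0) ((8 * a : ℕ) : ℤ) ⊆ bx (0, 0) (R : ℤ) := bx_mono _ (by push_cast; omega)
  have hsub2 : bx (0, 0) ((2 * a : ℕ) : ℤ) ⊆ bx (0, 0) ((8 * a : ℕ) : ℤ) :=
    bx_mono _ (by push_cast; omega)
  have hN1 : ∀ F : Finset Edg, N F (0, 0) 0 (2 * a) =
      N (F ∩ bx (0, 0) ((8 * a : ℕ) : ℤ)) (0, 0) 0 (2 * a) := fun F =>
    loc' h.geo (by omega) ((an_sub _ le_rfl).trans hsub2) F
  have hN2 : ∀ F : Finset Edg, N F (0, 0) r R = N (F ∩ an (0, 0) r R) (0, 0) r R := fun F =>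
    h.geo.loc F _ r R hrR
  have hY8 : ∀ F : Finset Edg, Y F = Y (F ∩ bx (0, 0) ((8 * a : ℕ) : ℤ)) := loc2 hT hYT
  have hd : Disjoint (bx (0, 0) ((8 * a : ℕ) : ℤ)) (an (0, 0) r R) :=
    (an_disj _ (by push_cast; omega)).symm
  have e1 : Ex P2 (bx (0, 0) (R : ℤ)) (fun F => (t ^ N F (0, 0) 0 (2 * a) * Y F) *
      t ^ N F (0, 0) r R) =
      Ex P2 (bx (0, 0) (R : ℤ)) (fun F => t ^ N F (0, 0) 0 (2 * a) * Y F) *
      Ex P2 (bx (0, 0) (R : ℤ)) (fun F => t ^ N F (0, 0) r R) :=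
    Ex_mul_indep hsub8 (an_sub _ le_rfl) hd
      (fun F _ => by rw [← hN1 F, ← hY8 F]) (fun F _ => by rw [← hN2 F])
  have e2 : Ex P2 (bx (0, 0) (R : ℤ)) (fun F => t ^ N F (0, 0) 0 (2 * a) *
      t ^ N F (0, 0) r R) =
      Ex P2 (bx (0, 0) (R : ℤ)) (fun F => t ^ N F (0, 0) 0 (2 * a)) *
      Ex P2 (bx (0, 0) (R : ℤ)) (fun F => t ^ N F (0, 0) r R) :=
    Ex_mul_indep hsub8 (an_sub _ le_rfl) hd
      (fun F _ => by rw [← hN1 F]) (fun F _ => by rw [← hN2 F])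
  have e3 : Ex P2 (bx (0, 0) (R : ℤ)) (fun F => t ^ N F (0, 0) 0 (2 * a)) = G N t 0 (2 * a) :=
    hl t (0, 0) 0 (2 * a) _ (by omega) (hsub2.trans hsub8)
  have e4 := hA (0, 0) 0 (2 * a) a (bx (0, 0) (R : ℤ)) T Y (by omega) ha le_rfl
    (hsub2.trans hsub8) (hT.trans hsub8) hTd hY (fun F _ => hYT F)
  have hG0 : 0 ≤ G N t 0 (2 * a) := Ex_nonneg hok fun F _ => by positivity
  have hE0 : 0 ≤ Ex P2 (bx (0, 0) (R : ℤ)) (fun F => t ^ N F (0, 0) r R) :=
    Ex_nonneg hok fun F _ => by positivity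
  calc Ex P2 (bx (0, 0) (R : ℤ)) (fun F => t ^ N F (0, 0) 0 (2 * a) * t ^ N F (0, 0) r R * Y F)
      = Ex P2 (bx (0, 0) (R : ℤ)) (fun F => (t ^ N F (0, 0) 0 (2 * a) * Y F) *
          t ^ N F (0, 0) r R) := by
        refine Ex_congr fun F _ => ?_
        ring
    _ = _ := e1
    _ ≤ (A * G N t 0 (2 * a) * Real.sqrt C) *
        Ex P2 (bx (0, 0) (R : ℤ)) (fun F => t ^ N F (0, 0) r R) := by
        refine mul_le_mul_of_nonneg_right (e4.trans ?_) hE0
        refine mul_le_mul_of_nonneg_left (Real.sqrt_le_sqrt hC) (by positivity)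
    _ = _ := by
        rw [e2, e3]
        ring

/-- pieces attached to the outer factor -/
lemma outer {N : NT} {W : WT} {K : KT} (h : Sys N W K) {t A : ℝ}
    (ht : 0 < t) (hA0 : 0 < A)
    (hA : ∀ (v : Vtx) (r R c : ℕ) (S T : Finset Edg) (Y : Finset Edg → ℝ), 1 ≤ r → r ≤ R →
      c ≤ 2 * r → bx v R ⊆ S → T ⊆ S → T ⊆ bx v c → (∀ F, 0 ≤ Y F) →
      (∀ F, F ⊆ S → Y F = Y (F ∩ T)) →
      Ex P2 S (fun F => t ^ N F v r R * Y F) ≤
        A * G N t r R * Real.sqrt (Ex P2 S (fun F => Y F ^ 2)))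
    {C : ℝ} {a r R : ℕ} (ha : 1 ≤ a) (har : 16 * a ≤ r) (hrR : 2 * r ≤ R)
    {T : Finset Edg} {Y : Finset Edg → ℝ} (hT : T ⊆ bx (0, 0) ((2 * r : ℕ) : ℤ))
    (hTd : Disjoint T (bx (0, 0) ((2 * a : ℕ) : ℤ))) (hY : ∀ F, 0 ≤ Y F)
    (hYT : ∀ F, Y F = Y (F ∩ T))
    (hC : Ex P2 (bx (0, 0) (R : ℤ)) (fun F => Y F ^ 2) ≤ C) :
    Ex P2 (bx (0, 0) (R : ℤ)) (fun F => t ^ N F (0, 0) 0 (2 * a) * t ^ N F (0, 0) r R * Y F) ≤
      A * Real.sqrt C *
        Ex P2 (bx (0, 0) (R : ℤ)) (fun F => t ^ N F (0, 0) 0 (2 * a) * t ^ N F (0, 0) r R) := by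
  have hsub2 : bx (0, 0) ((2 * a : ℕ) : ℤ) ⊆ bx (0, 0) (R : ℤ) := bx_mono _ (by push_cast; omega)
  have hsubr : bx (0, 0) ((2 * r : ℕ) : ℤ) ⊆ bx (0, 0) (R : ℤ) := bx_mono _ (by push_cast; omega)
  have hN1 : ∀ F : Finset Edg, N F (0, 0) 0 (2 * a) =
      N (F ∩ bx (0, 0) ((2 * a : ℕ) : ℤ)) (0, 0) 0 (2 * a) := fun F =>
    loc' h.geo (by omega) (an_sub _ le_rfl) F
  have hUd : Disjoint (bx (0, 0) ((2 * a : ℕ) : ℤ)) (T ∪ an (0, 0) r R) := by
    rw [Finset.disjoint_union_right]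
    exact ⟨hTd.symm, (an_disj _ (by push_cast; omega)).symm⟩
  have hN2 : ∀ F : Finset Edg, N F (0, 0) r R = N (F ∩ (T ∪ an (0, 0) r R)) (0, 0) r R := fun F =>
    loc' h.geo (by omega) subset_union_right F
  have hY8 : ∀ F : Finset Edg, Y F = Y (F ∩ (T ∪ an (0, 0) r R)) := loc2 subset_union_left hYT
  have hUR : T ∪ an (0, 0) r R ⊆ bx (0, 0) (R : ℤ) :=
    union_subset (hT.trans hsubr) (an_sub _ le_rfl)
  have e1 : Ex P2 (bx (0, 0) (R : ℤ)) (fun F => t ^ N F (0, 0) 0 (2 * a) *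
      (t ^ N F (0, 0) r R * Y F)) =
      Ex P2 (bx (0, 0) (R : ℤ)) (fun F => t ^ N F (0, 0) 0 (2 * a)) *
      Ex P2 (bx (0, 0) (R : ℤ)) (fun F => t ^ N F (0, 0) r R * Y F) :=
    Ex_mul_indep hsub2 hUR hUd
      (fun F _ => by rw [← hN1 F]) (fun F _ => by rw [← hN2 F, ← hY8 F])
  have e2 : Ex P2 (bx (0, 0) (R : ℤ)) (fun F => t ^ N F (0, 0) 0 (2 * a) *
      t ^ N F (0, 0) r R) =
      Ex P2 (bx (0, 0) (R : ℤ)) (fun F => t ^ N F (0, 0) 0 (2 * a)) *
      Ex P2 (bx (0, 0) (R : ℤ)) (fun F => t ^ N F (0, 0) r R) :=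
    Ex_mul_indep hsub2 hUR hUd
      (fun F _ => by rw [← hN1 F]) (fun F _ => by rw [← hN2 F])
  have e4 := hA (0, 0) r R (2 * r) (bx (0, 0) (R : ℤ)) T Y (by omega) (by omega) le_rfl
    (Subset.refl _) (hT.trans hsubr) hT hY (fun F _ => hYT F)
  have hG0 : 0 ≤ G N t r R := Ex_nonneg hok fun F _ => by positivity
  have hE0 : 0 ≤ Ex P2 (bx (0, 0) (R : ℤ)) (fun F => t ^ N F (0, 0) 0 (2 * a)) :=
    Ex_nonneg hok fun F _ => by positivity
  calc Ex P2 (bx (0, 0) (R : ℤ)) (fun F => t ^ N F (0, 0) 0 (2 * a) * t ^ N F (0, 0) r R * Y F)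
      = Ex P2 (bx (0, 0) (R : ℤ)) (fun F => t ^ N F (0, 0) 0 (2 * a) *
          (t ^ N F (0, 0) r R * Y F)) := by
        refine Ex_congr fun F _ => ?_
        ring
    _ = _ := e1
    _ ≤ Ex P2 (bx (0, 0) (R : ℤ)) (fun F => t ^ N F (0, 0) 0 (2 * a)) *
        (A * G N t r R * Real.sqrt C) := by
        refine mul_le_mul_of_nonneg_left (e4.trans ?_) hE0
        refine mul_le_mul_of_nonneg_left (Real.sqrt_le_sqrt hC) (by positivity)
    _ = _ := by
        rw [e2]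
        unfold G
        ring

lemma pw_sq (s : ℝ) (m n : ℕ) : (s ^ (m * n)) ^ 2 = (s ^ (2 * m)) ^ n := by
  rw [← pow_mul, ← pow_mul]
  congr 1
  ring

/-- large radii -/
lemma caseA {N : NT} {W : WT} {K : KT} (h : Sys N W K) (hl : LocG N) (ha : AMom N) (hd : Dec)
    (hi : TIn N) (ho : TOut N) {t : ℝ} (ht : 0 < t) : ∃ B : ℝ, 0 < B ∧ ∀ a r R : ℕ, 1 ≤ a →
      16 * a ≤ r → r < 32 * a → 2 * r ≤ R →
      G N t 0 (2 * a) * G N t r R ≤ B * G N t 0 R ∧
      G N t 0 R ≤ B * (G N t 0 (2 * a) * G N t r R) := by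
  obtain ⟨A1, hA1, hI⟩ := hi t 2 ht
  obtain ⟨A2, hA2, hO⟩ := ho t 2 ht
  obtain ⟨s, hs1, hst, hst'⟩ : ∃ s : ℝ, 1 ≤ s ∧ t ≤ s ∧ 1 / t ≤ s :=
    ⟨max 1 (max t (1 / t)), le_max_left _ _, (le_max_left _ _).trans (le_max_right _ _),
      (le_max_right _ _).trans (le_max_right _ _)⟩
  have hs10 : 1 ≤ s ^ (2 * 5) := one_le_pow₀ hs1
  obtain ⟨C1, hC1, hW⟩ := h.wmom (s ^ (2 * 5)) hs10
  obtain ⟨C2, hC2, hM⟩ := ha (s ^ (2 * 5)) hs10 16
  have hs0 : 0 < s := by linarith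
  have hB1 : 0 ≤ A1 * Real.sqrt C1 := by positivity
  have hB2 : 0 ≤ A1 * Real.sqrt C2 := by positivity
  have hB3 : 0 ≤ A2 * Real.sqrt C1 := by positivity
  have hB4 : 0 ≤ A2 * Real.sqrt C2 := by positivity
  refine ⟨A1 * Real.sqrt C1 + A1 * Real.sqrt C2 + A2 * Real.sqrt C1 + A2 * Real.sqrt C2 + 1,
    by positivity, ?_⟩
  intro a r R ha1 har har' hrR
  have key := hd s (A1 * Real.sqrt C1 + A1 * Real.sqrt C2 + A2 * Real.sqrt C1 +
      A2 * Real.sqrt C2 + 1) 5 (bx (0, 0) (R : ℤ))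
    (fun F => t ^ N F (0, 0) 0 (2 * a) * t ^ N F (0, 0) r R)
    (fun F => t ^ N F (0, 0) 0 R)
    (fun j F => match j with
      | 0 => W F (0, 0) a
      | 1 => N F (0, 0) a (8 * a)
      | 2 => W F (0, 0) (4 * a)
      | 3 => N F (0, 0) (4 * a) (2 * r)
      | _ => W F (0, 0) r) hs1 (by norm_num) (by positivity)
    (fun F => by positivity) ?_ ?_
  · have e2 : Ex P2 (bx (0, 0) (R : ℤ)) (fun F => t ^ N F (0, 0) 0 (2 * a) *
        t ^ N F (0, 0) r R) = G N t 0 (2 * a) * G N t r R := by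
      have hsub2 : bx (0, 0) ((2 * a : ℕ) : ℤ) ⊆ bx (0, 0) (R : ℤ) :=
        bx_mono _ (by push_cast; omega)
      have hN1 : ∀ F : Finset Edg, N F (0, 0) 0 (2 * a) =
          N (F ∩ bx (0, 0) ((2 * a : ℕ) : ℤ)) (0, 0) 0 (2 * a) := fun F =>
        loc' h.geo (by omega) (an_sub _ le_rfl) F
      have hN2 : ∀ F : Finset Edg, N F (0, 0) r R = N (F ∩ an (0, 0) r R) (0, 0) r R := fun F =>
        h.geo.loc F _ r R (by omega)
      rw [Ex_mul_indep (p := P2) (U := bx (0, 0) (R : ℤ)) (S := bx (0, 0) ((2 * a : ℕ) : ℤ))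
        (T := an (0, 0) r R) hsub2 (an_sub _ le_rfl) (an_disj _ (by push_cast; omega)).symm
        (f := fun F => t ^ N F (0, 0) 0 (2 * a)) (g := fun F => t ^ N F (0, 0) r R)
        (fun F _ => by rw [← hN1 F]) (fun F _ => by rw [← hN2 F]),
        hl t (0, 0) 0 (2 * a) _ (by omega) hsub2]
      rfl
    rw [e2] at key
    exact key
  · intro j hj
    have hE0 : 0 ≤ Ex P2 (bx (0, 0) (R : ℤ)) (fun F => t ^ N F (0, 0) 0 (2 * a) *
        t ^ N F (0, 0) r R) := Ex_nonneg hok fun F _ => by positivity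
    have hRa : bx (0, 0) ((2 * a : ℕ) : ℤ) ⊆ bx (0, 0) (R : ℤ) := bx_mono _ (by push_cast; omega)
    have hR8 : bx (0, 0) ((8 * a : ℕ) : ℤ) ⊆ bx (0, 0) (R : ℤ) := bx_mono _ (by push_cast; omega)
    have hR2r : bx (0, 0) ((2 * r : ℕ) : ℤ) ⊆ bx (0, 0) (R : ℤ) :=
      bx_mono _ (by push_cast; omega)
    have hcast : ∀ b : ℕ, (2 * (b : ℤ)) = ((2 * b : ℕ) : ℤ) := fun b => by push_cast; ring
    interval_cases j
    · -- W a
      have e := inner h hl ht hA1 hI (C := C1) ha1 har (by omega : r ≤ R)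
        (T := an (0, 0) a (2 * a)) (Y := fun F => s ^ (5 * W F (0, 0) a))
        ((an_sub _ (by omega)))
        (an_disj _ le_rfl) (fun F => by positivity)
        (fun F => by rw [← h.wloc F (0, 0) a ha1])
        (by
          simp only [pw_sq]
          exact hW (0, 0) a _ ha1 (by rw [hcast]; exact hRa))
      refine e.trans (mul_le_mul_of_nonneg_right (by linarith) hE0)
    · have e := inner h hl ht hA1 hI (C := C2) ha1 har (by omega : r ≤ R)
        (T := an (0, 0) a (8 * a)) (Y := fun F => s ^ (5 * N F (0, 0) a (8 * a)))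
        ((an_sub _ (by omega)))
        (an_disj _ le_rfl) (fun F => by positivity)
        (fun F => by rw [← h.geo.loc F (0, 0) a (8 * a) (by omega)])
        (by
          simp only [pw_sq]
          exact hM (0, 0) a (8 * a) _ ha1 (by omega) (by omega) hR8)
      refine e.trans (mul_le_mul_of_nonneg_right (by linarith) hE0)
    · have e := inner h hl ht hA1 hI (C := C1) ha1 har (by omega : r ≤ R)
        (T := an (0, 0) (4 * a) (2 * (4 * a))) (Y := fun F => s ^ (5 * W F (0, 0) (4 * a)))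
        ((an_sub _ (by omega)))
        (an_disj _ (by push_cast; omega)) (fun F => by positivity)
        (fun F => by rw [← h.wloc F (0, 0) (4 * a) (by omega)])
        (by
          simp only [pw_sq]
          refine hW (0, 0) (4 * a) _ (by omega) ?_
          rw [hcast]
          exact bx_mono _ (by push_cast; omega))
      refine e.trans (mul_le_mul_of_nonneg_right (by linarith) hE0)
    · have e := outer h ht hA2 hO (C := C2) ha1 har hrR
        (T := an (0, 0) (4 * a) (2 * r)) (Y := fun F => s ^ (5 * N F (0, 0) (4 * a) (2 * r)))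
        ((an_sub _ (by omega)))
        (an_disj _ (by push_cast; omega)) (fun F => by positivity)
        (fun F => by rw [← h.geo.loc F (0, 0) (4 * a) (2 * r) (by omega)])
        (by
          simp only [pw_sq]
          exact hM (0, 0) (4 * a) (2 * r) _ (by omega) (by omega) (by omega) hR2r)
      refine e.trans (mul_le_mul_of_nonneg_right (by linarith) hE0)
    · have e := outer h ht hA2 hO (C := C1) ha1 har hrR
        (T := an (0, 0) r (2 * r)) (Y := fun F => s ^ (5 * W F (0, 0) r))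
        ((an_sub _ (by omega)))
        (an_disj _ (by push_cast; omega)) (fun F => by positivity)
        (fun F => by rw [← h.wloc F (0, 0) r (by omega)])
        (by
          simp only [pw_sq]
          refine hW (0, 0) r _ (by omega) ?_
          rw [hcast]
          exact hR2r)
      refine e.trans (mul_le_mul_of_nonneg_right (by linarith) hE0)
  · intro F _
    have j1 := h.join F (0, 0) a 0 R ha1 (by omega) (by omega)
    have j2 := h.join F (0, 0) (4 * a) a R (by omega) (by omega) (by omega)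
    have j3 := h.join F (0, 0) r (4 * a) R (by omega) (by omega) (by omega)
    have j4 := h.geo.super F (0, 0) 0 (2 * a) r R (by omega) (by omega) (by omega)
    have e8 : 2 * (4 * a) = 8 * a := by ring
    rw [e8] at j2
    have hsum : ∑ j ∈ range 5, (fun (j : ℕ) (F : Finset Edg) => match j with
        | 0 => W F (0, 0) a
        | 1 => N F (0, 0) a (8 * a)
        | 2 => W F (0, 0) (4 * a)
        | 3 => N F (0, 0) (4 * a) (2 * r)
        | _ => W F (0, 0) r) j F = W F (0, 0) a + N F (0, 0) a (8 * a) + W F (0, 0) (4 * a) +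
          N F (0, 0) (4 * a) (2 * r) + W F (0, 0) r := by
      simp [Finset.sum_range_succ]
    rw [hsum]
    simp only [← pow_add]
    exact cmp ht hs1 hst hst' (by omega) (by omega)

/-- small inner radius -/
lemma caseB {N : NT} {W : WT} {K : KT} (h : Sys N W K) (hd : Dec)
    (ho : TOut N) {t : ℝ} (ht : 0 < t) : ∃ B : ℝ, 0 < B ∧ ∀ r R : ℕ, 1 ≤ r →
      r < 16 → 2 * r ≤ R →
      G N t r R ≤ B * G N t 0 R ∧ G N t 0 R ≤ B * G N t r R := by
  obtain ⟨A2, hA2, hO⟩ := ho t 2 ht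
  obtain ⟨s, hs1, hst, hst'⟩ : ∃ s : ℝ, 1 ≤ s ∧ t ≤ s ∧ 1 / t ≤ s :=
    ⟨max 1 (max t (1 / t)), le_max_left _ _, (le_max_left _ _).trans (le_max_right _ _),
      (le_max_right _ _).trans (le_max_right _ _)⟩
  have hs10 : 1 ≤ s ^ (2 * 2) := one_le_pow₀ hs1
  obtain ⟨C1, hC1, hW⟩ := h.wmom (s ^ (2 * 2)) hs10
  have hs0 : 0 < s := by linarith
  have hB3 : 0 ≤ A2 * Real.sqrt C1 := by positivity
  have hB4 : 0 ≤ s ^ (2 * 64) := by positivity
  refine ⟨A2 * Real.sqrt C1 + s ^ (2 * 64) + 1, by positivity, ?_⟩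
  intro r R hr1 hr16 hrR
  refine hd s (A2 * Real.sqrt C1 + s ^ (2 * 64) + 1) 2 (bx (0, 0) (R : ℤ))
    (fun F => t ^ N F (0, 0) r R)
    (fun F => t ^ N F (0, 0) 0 R)
    (fun j F => match j with
      | 0 => 64
      | _ => W F (0, 0) r) hs1 (by norm_num) (by positivity)
    (fun F => by positivity) ?_ ?_
  · intro j hj
    have hE0 : 0 ≤ Ex P2 (bx (0, 0) (R : ℤ)) (fun F => t ^ N F (0, 0) r R) :=
      Ex_nonneg hok fun F _ => by positivity
    have hR2r : bx (0, 0) ((2 * r : ℕ) : ℤ) ⊆ bx (0, 0) (R : ℤ) :=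
      bx_mono _ (by push_cast; omega)
    interval_cases j
    · have e := Ex_mul_right P2 (bx (0, 0) (R : ℤ)) (s ^ (2 * 64)) (fun F => t ^ N F (0, 0) r R)
      refine e.le.trans ?_
      rw [mul_comm]
      exact mul_le_mul_of_nonneg_right (by linarith) hE0
    · have e := hO (0, 0) r R (2 * r) (bx (0, 0) (R : ℤ)) (an (0, 0) r (2 * r))
        (fun F => s ^ (2 * W F (0, 0) r)) hr1 (by omega) le_rfl (Subset.refl _)
        ((an_sub _ le_rfl).trans hR2r) (an_sub _ le_rfl) (fun F => by positivity)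
        (fun F _ => by rw [← h.wloc F (0, 0) r hr1])
      have e' : Ex P2 (bx (0, 0) (R : ℤ)) (fun F => (s ^ (2 * W F (0, 0) r)) ^ 2) ≤ C1 := by
        simp only [pw_sq]
        refine hW (0, 0) r _ hr1 ?_
        rw [show (2 * (r : ℤ)) = ((2 * r : ℕ) : ℤ) by push_cast; ring]
        exact hR2r
      refine e.trans ?_
      calc A2 * G N t r R * Real.sqrt (Ex P2 (bx (0, 0) (R : ℤ))
            (fun F => (s ^ (2 * W F (0, 0) r)) ^ 2))
          ≤ A2 * G N t r R * Real.sqrt C1 :=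
            mul_le_mul_of_nonneg_left (Real.sqrt_le_sqrt e') (mul_nonneg hA2.le hE0)
        _ = (A2 * Real.sqrt C1) * G N t r R := by ring
        _ ≤ _ := mul_le_mul_of_nonneg_right (by linarith) hE0
  · intro F _
    have j3 := h.join F (0, 0) r 0 R (by omega) (by omega) (by omega)
    have j4 := h.geo.mono F (0, 0) r 0 R R (by omega) le_rfl
    have j5 := h.geo.le F (0, 0) 0 (2 * r)
    have hsum : ∑ j ∈ range 2, (fun (j : ℕ) (F : Finset Edg) => match j with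
        | 0 => 64
        | _ => W F (0, 0) r) j F = 64 + W F (0, 0) r := by
      simp [Finset.sum_range_succ]
    rw [hsum]
    exact cmp ht hs1 hst hst' (by omega) (by omega)

/-- thin annuli -/
lemma caseC {N : NT} (ha : AMom N) {t : ℝ} (ht : 0 < t) : ∃ B : ℝ, 0 < B ∧ ∀ r R : ℕ, 1 ≤ r →
      r ≤ R → R < 2 * r → G N t r R ≤ B ∧ 1 ≤ B * G N t r R := by
  obtain ⟨s, hs1, hst, hst'⟩ : ∃ s : ℝ, 1 ≤ s ∧ t ≤ s ∧ 1 / t ≤ s :=
    ⟨max 1 (max t (1 / t)), le_max_left _ _, (le_max_left _ _).trans (le_max_right _ _),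
      (le_max_right _ _).trans (le_max_right _ _)⟩
  obtain ⟨C, hC, hM⟩ := ha s hs1 2
  have hs0 : 0 < s := by linarith
  refine ⟨C, hC, ?_⟩
  intro r R hr1 hrR hR2
  have e := hM (0, 0) r R (bx (0, 0) (R : ℤ)) hr1 hrR (by omega) (Subset.refl _)
  constructor
  · refine le_trans (Ex_mono hok fun F _ => ?_) e
    gcongr
  · have e2 : Ex P2 (bx (0, 0) (R : ℤ)) (fun F => 2 / C - (1 / C ^ 2) * s ^ N F (0, 0) r R) ≤
        G N t r R := by
      refine Ex_mono hok fun F _ => ?_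
      obtain ⟨n, hn⟩ : ∃ n, n = N F (0, 0) r R := ⟨_, rfl⟩
      rw [← hn]
      have h3 : 1 ≤ t * s := by
        rw [div_le_iff₀ ht] at hst'
        linarith [mul_comm s t]
      have h4 : 1 ≤ t ^ n * s ^ n := by
        rw [← mul_pow]
        exact one_le_pow₀ h3
      have h5 : 0 < s ^ n := by positivity
      have h6 : 0 < t ^ n := by positivity
      have h7 : 2 / C ≤ t ^ n + 1 / C ^ 2 * s ^ n := by
        rw [div_le_iff₀ hC]
        have h8 : (t ^ n + 1 / C ^ 2 * s ^ n) * C = C * t ^ n + s ^ n / C := by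
          field_simp
        rw [h8]
        have h9 : C * t ^ n * (s ^ n / C) = t ^ n * s ^ n := by
          field_simp
        have h10 : 0 ≤ C * t ^ n := by positivity
        have h11 : 0 ≤ s ^ n / C := by positivity
        nlinarith [sq_nonneg (C * t ^ n - s ^ n / C), sq_nonneg (C * t ^ n + s ^ n / C - 2)]
      linarith
    rw [Ex_sub, Ex_const, Ex_mul_left] at e2
    have h12 : 2 / C - 1 / C ^ 2 * C ≤ G N t r R := by
      refine le_trans ?_ e2
      have : 1 / C ^ 2 * Ex P2 (bx (0, 0) (R : ℤ)) (fun F => s ^ N F (0, 0) r R) ≤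
          1 / C ^ 2 * C := mul_le_mul_of_nonneg_left e (by positivity)
      linarith
    have h13 : 2 / C - 1 / C ^ 2 * C = 1 / C := by
      field_simp
      norm_num
    rw [h13, div_le_iff₀ hC] at h12
    linarith

lemma rp {x p : ℝ} (h1 : 1 ≤ x) (h2 : x ≤ 16) :
    1 ≤ (16 : ℝ) ^ |p| * x ^ p ∧ x ^ p ≤ (16 : ℝ) ^ |p| := by
  have hx : 0 < x := by linarith
  constructor
  · have h3 : x ^ (-p) ≤ (16 : ℝ) ^ |p| := by
      calc x ^ (-p) ≤ x ^ |p| := Real.rpow_le_rpow_of_exponent_le h1 (neg_le_abs p)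
        _ ≤ _ := Real.rpow_le_rpow hx.le h2 (abs_nonneg p)
    rw [Real.rpow_neg hx.le] at h3
    have h4 : 0 < x ^ p := Real.rpow_pos_of_pos hx p
    calc (1 : ℝ) = (x ^ p)⁻¹ * x ^ p := by field_simp
      _ ≤ _ := mul_le_mul_of_nonneg_right h3 h4.le
  · calc x ^ p ≤ x ^ |p| := Real.rpow_le_rpow_of_exponent_le h1 (le_abs_self p)
      _ ≤ _ := Real.rpow_le_rpow hx.le h2 (abs_nonneg p)

theorem t_ANN {N : NT} {W : WT} {K : KT} (h : Sys N W K) (hl : LocG N) (ha : AMom N) (hd : Dec)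
    (hi : TIn N) (ho : TOut N) (h1 : OneS N) : AnnS N := by
  intro t ht
  obtain ⟨c, C, hc, hC, hone⟩ := h1 t ht
  obtain ⟨BA, hBA, hA⟩ := caseA h hl ha hd hi ho ht
  obtain ⟨BB, hBB, hB⟩ := caseB h hd ho ht
  obtain ⟨BC, hBC, hCC⟩ := caseC ha ht
  obtain ⟨p, hp⟩ : ∃ p, p = Psi t := ⟨_, rfl⟩
  rw [← hp] at hone ⊢
  obtain ⟨Q, hQ⟩ : ∃ Q, Q = (16 : ℝ) ^ |p| := ⟨_, rfl⟩
  have hQ0 : 0 < Q := by rw [hQ]; positivity
  have hG0 : ∀ r R : ℕ, 0 ≤ G N t r R := fun r R => Ex_nonneg hok fun F _ => by positivity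
  -- main claim
  obtain ⟨D, hD⟩ : ∃ D, D = BA * C / c * Q + BB * C * Q + BB * Q / c + BC * Q := ⟨_, rfl⟩
  have hD1 : 0 ≤ BA * C / c * Q := by positivity
  have hD2 : 0 ≤ BB * C * Q := by positivity
  have hD3 : 0 ≤ BB * Q / c := by positivity
  have hD4 : 0 < BC * Q := by positivity
  have hD0 : 0 < D := by rw [hD]; linarith
  have main : ∀ r R : ℕ, 1 ≤ r → r ≤ R →
      ((R : ℝ) / r) ^ p ≤ D * G N t r R ∧ G N t r R ≤ D * ((R : ℝ) / r) ^ p := by
    intro r R hr hrR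
    have hr0 : (0 : ℝ) < r := by exact_mod_cast hr
    have hR0 : (0 : ℝ) < R := by
      have : 0 < R := by omega
      exact_mod_cast this
    obtain ⟨g, hg⟩ : ∃ g, g = G N t r R := ⟨_, rfl⟩
    have hg0 : 0 ≤ g := by rw [hg]; exact hG0 r R
    obtain ⟨w, hw⟩ : ∃ w, w = (R : ℝ) ^ p := ⟨_, rfl⟩
    obtain ⟨z, hz⟩ : ∃ z, z = (r : ℝ) ^ p := ⟨_, rfl⟩
    have hw0 : 0 < w := by rw [hw]; positivity
    have hz0 : 0 < z := by rw [hz]; positivity
    have hwz : ((R : ℝ) / r) ^ p = w / z := by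
      rw [Real.div_rpow hR0.le hr0.le, hw, hz]
    have hwz0 : 0 ≤ w / z := by positivity
    rw [hwz, ← hg]
    have fin : ∀ x : ℝ, 0 ≤ x → x ≤ D → w / z ≤ x * g → w / z ≤ D * g := fun x _ h2 h3 =>
      h3.trans (mul_le_mul_of_nonneg_right h2 hg0)
    have fin' : ∀ x : ℝ, 0 ≤ x → x ≤ D → g ≤ x * (w / z) → g ≤ D * (w / z) := fun x _ h2 h3 =>
      h3.trans (mul_le_mul_of_nonneg_right h2 hwz0)
    obtain ⟨o1, o2⟩ := hone R (by omega)
    rw [← hw] at o1 o2
    by_cases hR2 : R < 2 * r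
    · obtain ⟨k1, k2⟩ := hCC r R hr hrR hR2
      rw [← hg] at k1 k2
      have hx1 : 1 ≤ (R : ℝ) / r := by
        rw [le_div_iff₀ hr0, one_mul]
        exact_mod_cast hrR
      have hx2 : (R : ℝ) / r ≤ 16 := by
        rw [div_le_iff₀ hr0]
        have : R ≤ 16 * r := by omega
        exact_mod_cast this
      obtain ⟨m1, m2⟩ := rp (p := p) hx1 hx2
      rw [hwz, ← hQ] at m1 m2
      constructor
      · refine fin (BC * Q) hD4.le (by linarith) ?_
        calc w / z ≤ Q * 1 := by linarith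
          _ ≤ Q * (BC * g) := mul_le_mul_of_nonneg_left k2 hQ0.le
          _ = _ := by ring
      · refine fin' (BC * Q) hD4.le (by linarith) ?_
        calc g ≤ BC * 1 := by linarith
          _ ≤ BC * (Q * (w / z)) := mul_le_mul_of_nonneg_left m1 hBC.le
          _ = _ := by ring
    push Not at hR2
    by_cases hr16 : r < 16
    · obtain ⟨k1, k2⟩ := hB r R hr hr16 hR2
      rw [← hg] at k1 k2
      have hx1 : 1 ≤ (r : ℝ) := by exact_mod_cast hr
      have hx2 : (r : ℝ) ≤ 16 := by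
        have : r ≤ 16 := by omega
        exact_mod_cast this
      obtain ⟨m1, m2⟩ := rp (p := p) hx1 hx2
      rw [← hz, ← hQ] at m1 m2
      constructor
      · refine fin (BB * Q / c) hD3 (by linarith) ?_
        have h2 : c * w ≤ BB * g := o1.trans k2
        rw [div_le_iff₀ hz0]
        calc w = (c * w) / c := by field_simp
          _ ≤ (BB * g) / c := by gcongr
          _ = (BB * g) / c * 1 := by ring
          _ ≤ (BB * g) / c * (Q * z) := by gcongr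
          _ = _ := by ring
      · refine fin' (BB * C * Q) hD2 (by linarith) ?_
        calc g ≤ BB * (C * w) := k1.trans (mul_le_mul_of_nonneg_left o2 hBB.le)
          _ = BB * C * z * (w / z) := by field_simp
          _ ≤ _ := by gcongr
    push Not at hr16
    obtain ⟨a, ha'⟩ : ∃ a, a = r / 16 := ⟨_, rfl⟩
    have ha1 : 1 ≤ a := by omega
    have ha2 : 16 * a ≤ r := by omega
    have ha3 : r < 32 * a := by omega
    obtain ⟨k1, k2⟩ := hA a r R ha1 ha2 ha3 hR2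
    rw [← hg] at k1 k2
    have ha0 : (0 : ℝ) < ((2 * a : ℕ) : ℝ) := by
      have : 0 < 2 * a := by omega
      exact_mod_cast this
    have hx1 : 1 ≤ (r : ℝ) / ((2 * a : ℕ) : ℝ) := by
      rw [le_div_iff₀ ha0, one_mul]
      have : 2 * a ≤ r := by omega
      exact_mod_cast this
    have hx2 : (r : ℝ) / ((2 * a : ℕ) : ℝ) ≤ 16 := by
      rw [div_le_iff₀ ha0]
      have : r ≤ 16 * (2 * a) := by omega
      exact_mod_cast this
    obtain ⟨m1, m2⟩ := rp (p := p) hx1 hx2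
    obtain ⟨q1, q2⟩ := hone (2 * a) (by omega)
    obtain ⟨u, hu⟩ : ∃ u, u = ((2 * a : ℕ) : ℝ) ^ p := ⟨_, rfl⟩
    have hu0 : 0 < u := by rw [hu]; positivity
    rw [Real.div_rpow hr0.le ha0.le, ← hz, ← hQ, ← hu] at m1 m2
    rw [← hu] at q1 q2
    have hga := hG0 0 (2 * a)
    have m1' : u ≤ Q * z := by
      have : u * 1 ≤ u * (Q * (z / u)) := mul_le_mul_of_nonneg_left m1 hu0.le
      have e : u * (Q * (z / u)) = Q * z := by field_simp
      linarith
    have m2' : z ≤ Q * u := by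
      rwa [div_le_iff₀ hu0] at m2
    constructor
    · refine fin (BA * C / c * Q) hD1 (by linarith) ?_
      have h2 : c * w ≤ BA * ((C * u) * g) := by
        refine o1.trans (k2.trans ?_)
        gcongr
      rw [div_le_iff₀ hz0]
      calc w = (c * w) / c := by field_simp
        _ ≤ (BA * ((C * u) * g)) / c := by gcongr
        _ ≤ (BA * ((C * (Q * z)) * g)) / c := by gcongr
        _ = _ := by ring
    · refine fin' (BA * C / c * Q) hD1 (by linarith) ?_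
      have h2 : (c * u) * g ≤ BA * (C * w) := by
        refine le_trans ?_ (k1.trans ?_)
        · gcongr
        · gcongr
      have h3 : g ≤ BA * (C * w) / (c * u) := by
        rw [le_div_iff₀ (by positivity)]
        linarith [mul_comm g (c * u)]
      refine h3.trans ?_
      rw [div_le_iff₀ (by positivity)]
      have e : BA * C / c * Q * (w / z) * (c * u) = BA * (C * w) * (Q * u / z) := by
        field_simp
      rw [e]
      have h4 : 1 ≤ Q * u / z := by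
        rw [le_div_iff₀ hz0, one_mul]
        exact m2'
      exact le_mul_of_one_le_right (by positivity) h4
  refine ⟨1 / D, D, by positivity, hD0, fun r R hr hrR => ?_⟩
  obtain ⟨n1, n2⟩ := main r R hr hrR
  refine ⟨?_, n2⟩
  calc 1 / D * ((R : ℝ) / r) ^ p ≤ 1 / D * (D * G N t r R) := by gcongr
    _ = G N t r R := by field_simp

end Pool.Agent.W585.NC

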